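import Pool.Agent.H50.BU.Span

set_option autoImplicit false

open MeasureTheory Filter Topology Set
open scoped ComplexOrder

namespace Pool.Agent.Results.MP_81910f_an.BohrUniqueness

open Pool.Agent.H50 Pool.Agent.H50.Tr Pool.Agent.H50.BU

/-- **A uniqueness theorem along Bohr sets for the tracial states of `ℤ² ⋉ ℤ[1/6]`.** `G` is
generated by the permutations `x ↦ 2 x`, `x ↦ 3 x`, `x ↦ x + 1` of `ℚ` and `Traces G` is the set of
normalised positive definite class functions, i.e. of the tracial states of `C*(G)`. Let `F` be any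
complex linear combination of tracial states, `g` a translation, `A` a finite set of frequencies
`α ∈ ℝ/ℤ`, `n₀` an integer, and let `m = ord A` be the number of elements of the subgroup of `ℝ/ℤ`
generated by `A` whose order is finite and prime to `6`. Then `F (g ^ n)` tends to `0` as `n` tends
to infinity in some Bohr set `{n | ‖(n - n₀) α‖ < ε for α ∈ A}` (`ε > 0`) if and only if
`F (g ^ n) = 0` for all `n ≠ 0` with `n ≡ n₀ mod m`. In particular, if the group generated by `A`
has no element of finite order prime to `6` except `0`, then two tracial states whose difference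
tends to zero along such a Bohr set, with any centre `n₀` and any `ε > 0`, agree on all
translations. -/
theorem result (s2 s3 t : Equiv.Perm ℚ) (hs2 : ∀ x, s2 x = 2 * x) (hs3 : ∀ x, s3 x = 3 * x)
    (ht : ∀ x, t x = x + 1) (G : Subgroup (Equiv.Perm ℚ)) (hG : G = Subgroup.closure {s2, s3, t}) :
    ∀ F ∈ Submodule.span ℂ (Traces G), ∀ g : G, IsTranslation g →
      ∀ (A : Finset UnitAddCircle) (n₀ : ℤ),
        (∃ ε : ℝ, 0 < ε ∧ Tendsto (fun n : ℤ => F (g ^ n)) (cofinite ⊓ 𝓟 (Bohr A ε n₀)) (𝓝 0)) ↔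
          ∀ n : ℤ, n ≠ 0 → (ord A : ℤ) ∣ n - n₀ → F (g ^ n) = 0 := by
  intro F hF g hg A n₀
  constructor
  · rintro ⟨ε, hε, hlim⟩ n hn hdvd
    obtain ⟨κ, h, hprob, hI, ⟨hh, C, hC⟩, hval⟩ := rep_span hs2 hs3 ht hG hF hg
    have hne : ∀ᶠ n : ℤ in cofinite, n ≠ 0 := (finite_singleton (0 : ℤ)).compl_mem_cofinite
    have h1 : Tendsto (fun n : ℤ => ∫ x, (fourier n x : ℂ) * h x ∂κ)
        (cofinite ⊓ 𝓟 (Bohr A ε n₀)) (𝓝 0) := by
      refine hlim.congr' ?_
      filter_upwards [mem_inf_of_left hne] with n hn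
      exact hval n hn
    have h2 := main hI.two hI.three hI.sing hh hC A hε n₀ h1
    have h3 : Tendsto (fun n : ℤ => F (g ^ n)) (cofinite ⊓ 𝓟 {n : ℤ | (ord A : ℤ) ∣ n - n₀}) (𝓝 0) := by
      refine h2.congr' ?_
      filter_upwards [mem_inf_of_left hne] with n hn
      exact (hval n hn).symm
    -- the sequence `6 ^ (e k) n`
    set m := ord A with hm
    have hm0 : 0 < m := ord_pos A
    set e := Nat.totient m with he
    have he0 : 0 < e := Nat.totient_pos.2 hm0
    have hinv : ∀ k : ℕ, F (g ^ ((6 : ℤ) ^ k * n)) = F (g ^ n) := by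
      intro k
      induction k with
      | zero => simp
      | succ k ih =>
        have e1 : (6 : ℤ) ^ (k + 1) * n = 6 * (6 ^ k * n) := by ring
        rw [e1, span_inv hs2 hs3 hG hF hg, ih]
    have hmod : ∀ k : ℕ, (m : ℤ) ∣ (6 : ℤ) ^ (e * k) * n - n₀ := by
      intro k
      have h4 : 6 ^ e ≡ 1 [MOD m] := Nat.ModEq.pow_totient (ord_coprime A).symm
      have h5 : 6 ^ (e * k) ≡ 1 [MOD m] := by
        have := h4.pow k
        rwa [one_pow, ← pow_mul] at this
      have h6 : (m : ℤ) ∣ 6 ^ (e * k) - 1 := by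
        have := (Nat.modEq_iff_dvd.1 h5.symm)
        push_cast at this
        exact this
      have h7 : (6 : ℤ) ^ (e * k) * n - n₀ = (6 ^ (e * k) - 1) * n + (n - n₀) := by ring
      rw [h7]
      exact dvd_add (h6.mul_right n) hdvd
    have hinj : Function.Injective fun k : ℕ => (6 : ℤ) ^ (e * k) * n := by
      intro k l hkl
      have h4 : (6 : ℤ) ^ (e * k) = 6 ^ (e * l) := mul_right_cancel₀ hn hkl
      have h5 : e * k = e * l := by
        have : (6 : ℕ) ^ (e * k) = 6 ^ (e * l) := by exact_mod_cast h4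
        exact Nat.pow_right_injective (by norm_num) this
      exact Nat.eq_of_mul_eq_mul_left he0 h5
    have htend : Tendsto (fun k : ℕ => (6 : ℤ) ^ (e * k) * n) atTop
        (cofinite ⊓ 𝓟 {n : ℤ | (m : ℤ) ∣ n - n₀}) := by
      rw [tendsto_inf]
      refine ⟨?_, tendsto_principal.2 (Eventually.of_forall hmod)⟩
      rw [← Nat.cofinite_eq_atTop]
      exact hinj.tendsto_cofinite
    have h4 := h3.comp htend
    have h5 : ((fun n : ℤ => F (g ^ n)) ∘ fun k : ℕ => (6 : ℤ) ^ (e * k) * n) = fun _ => F (g ^ n) := by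
      funext k
      exact hinv (e * k)
    rw [h5] at h4
    exact tendsto_nhds_unique tendsto_const_nhds h4
  · intro h
    obtain ⟨ε, hε, hb⟩ := small_bohr A
    refine ⟨ε, hε, ?_⟩
    have hne : ∀ᶠ n : ℤ in cofinite, n ≠ 0 := (finite_singleton (0 : ℤ)).compl_mem_cofinite
    refine tendsto_const_nhds.congr' ?_
    rw [eventuallyEq_inf_principal_iff]
    filter_upwards [hne] with n hn hnB
    exact (h n hn (hb (n - n₀) hnB)).symm

end Pool.Agent.Results.MP_81910f_an.BohrUniqueness
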