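import Pool.Agent.H50.PR.Count
import Pool.Agent.H50.UR.Tr

set_option autoImplicit false

open MeasureTheory Filter Topology Set
open scoped ComplexOrder ENNReal

namespace Pool.Agent.Results.MP_81910f_an.PrimeRoots

open Pool.Agent.H50 Pool.Agent.H50.Tr Pool.Agent.H50.UR Pool.Agent.H50.PR Pool.Agent.V11299.FG
open Pool.Agent.TH654.FC Pool.Agent.V1194.TR Pool.Agent.W763.Tr

/-- `χ` is a `p`-th root of `φ`: an extreme tracial state with `χ (g ^ p) = φ g` for all
translations `g` -/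
def IsRoot {G : Subgroup (Equiv.Perm ℚ)} (p : ℕ) (φ χ : G → ℂ) : Prop :=
  χ ∈ Set.extremePoints ℝ (Traces G) ∧ ∀ g : G, IsTranslation g → χ (g ^ p) = φ g

/-- translations by `n / 6 ^ k` belong to the group -/
lemma exists_trans' {s2 s3 t : Equiv.Perm ℚ} {G : Subgroup (Equiv.Perm ℚ)} (hs2 : ∀ x, s2 x = 2 * x)
    (hs3 : ∀ x, s3 x = 3 * x) (ht : ∀ x, t x = x + 1) (hG : G = Subgroup.closure {s2, s3, t})
    (n : ℤ) (k : ℕ) : ∃ g : G, ∀ x : ℚ, (g : Equiv.Perm ℚ) x = x + n / 6 ^ k := by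
  have m2 : s2 ∈ G := by rw [hG]; exact Subgroup.subset_closure (by simp)
  have m3 : s3 ∈ G := by rw [hG]; exact Subgroup.subset_closure (by simp)
  obtain ⟨g, hg⟩ := exists_trans ht hG (s2 := s2) (s3 := s3) n
  set S : G := ⟨s2, m2⟩ * ⟨s3, m3⟩ with hS
  have hSx : ∀ x, (S : Equiv.Perm ℚ) x = 6 * x := by
    intro x
    have e : (S : Equiv.Perm ℚ) x = s2 (s3 x) := rfl
    rw [e, hs3, hs2]; ring
  have hSk : ∀ (k : ℕ) x, ((S ^ k : G) : Equiv.Perm ℚ) x = 6 ^ k * x := by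
    intro k
    induction k with
    | zero => intro x; simp
    | succ k ih =>
      intro x
      rw [pow_succ, Subgroup.coe_mul, Equiv.Perm.mul_apply, hSx, ih]
      ring
  refine ⟨(S ^ k)⁻¹ * g * S ^ k, fun x => ?_⟩
  have e : (((S ^ k)⁻¹ * g * S ^ k : G) : Equiv.Perm ℚ) x =
      ((((S ^ k)⁻¹ : G) : Equiv.Perm ℚ)) ((g : Equiv.Perm ℚ) (((S ^ k : G) : Equiv.Perm ℚ) x)) := rfl
  rw [e, Subgroup.coe_inv, Equiv.Perm.inv_eq_iff_eq, hg, hSk, hSk]
  field_simp

lemma int_mu1_zero {p : ℕ} (hp : 0 < p) (ν : Measure UnitAddCircle) [IsFiniteMeasure ν] {n : ℤ}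
    (hn : ¬ (p : ℤ) ∣ n) : ∫ x, (fourier n x : ℂ) ∂(Pool.Agent.W764.FB.mu1 p ν) = 0 := by
  have h1 := Q70.Af.int_mu1 p ν n
  have h2 := Q70.Af.sum_hh hp n
  rw [if_neg hn] at h2
  rw [h2, zero_mul] at h1
  exact h1

/-- **The roots of prime order of the extreme traces of `ℤ² ⋉ ℤ[1/6]`.** `G` is generated by the
permutations `x ↦ 2 x`, `x ↦ 3 x`, `x ↦ x + 1` of `ℚ`; `Traces G` is the set of normalised positive
definite class functions, i.e. of the tracial states of `C*(G)`. Let `p ≥ 5` be a prime and `φ` an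
extreme trace which is not conditionally finite-dimensional. The set `R` of the extreme traces `χ`
with `χ (g ^ p) = φ g` for all translations `g` is finite, and there are positive integers `s χ`,
`χ ∈ R`, with sum `p`, such that `∑ s χ * χ g` vanishes at all translations `g` which are not `p`-th
powers of translations (at `g = h ^ p` it is `p * φ h`, by the definition of `R`). Either `R` has one
element, or there is a divisor `h` of the order of the group generated by `2` and `3` in `(ℤ/p)ˣ`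
such that `R` has `1 + (p - 1) / h` elements, one of them with multiplicity `1` and the others with
multiplicity `h`. -/
theorem result (s2 s3 t : Equiv.Perm ℚ) (hs2 : ∀ x, s2 x = 2 * x) (hs3 : ∀ x, s3 x = 3 * x)
    (ht : ∀ x, t x = x + 1) (G : Subgroup (Equiv.Perm ℚ)) (hG : G = Subgroup.closure {s2, s3, t}) :
    ∀ p : ℕ, p.Prime → 5 ≤ p → ∀ φ ∈ Set.extremePoints ℝ (Traces G), ¬ CondFinDim φ →
      ∃ (R : Finset (G → ℂ)) (s : (G → ℂ) → ℕ), (∀ χ, χ ∈ R ↔ IsRoot p φ χ) ∧ ∑ χ ∈ R, s χ = p ∧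
        (∀ g : G, IsTranslation g → (∀ h : G, IsTranslation h → h ^ p ≠ g) →
          ∑ χ ∈ R, (s χ : ℂ) * χ g = 0) ∧
        ((∃ ψ, R = {ψ}) ∨ ∃ ψ ∈ R, s ψ = 1 ∧ ∃ h : ℕ, 1 ≤ h ∧
          h ∣ Nat.card (Subgroup.closure {u : (ZMod p)ˣ | (u : ZMod p) = 2 ∨ (u : ZMod p) = 3}) ∧
          R.card = 1 + (p - 1) / h ∧ ∀ χ ∈ R, χ ≠ ψ → s χ = h) := by
  classical
  intro p hp hp5 φ hφ hfd
  have : Fact p.Prime := ⟨hp⟩
  obtain ⟨μ, hμ, h2, h3, hat, he, hφ1, hφ2⟩ := of_extreme hs2 hs3 ht hG hφ (Or.inl hfd)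
  have hφ3 := (trace_of hs2 hs3 ht hG h2 h3 hat he).2.2.2
  rw [← hφ1] at hφ3
  -- roots and measures
  have hto : ∀ χ, IsRoot p φ χ → ∃ ρ : Measure UnitAddCircle, Root p μ ρ ∧ χ = Pool.Agent.Y253.TR.tr ρ := by
    rintro χ ⟨hχ, hroot⟩
    obtain ⟨ρ, hρ, i2, i3, hatρ, heρ, hρ1, hρ2⟩ := of_extreme hs2 hs3 ht hG hχ (Or.inr (by
      intro ρ hρ x
      by_cases hp : IsProbabilityMeasure ρ
      · exact atomless_of_mu (mu_of_root ht hG hφ2 hρ hroot) hat x
      · exfalso
        obtain ⟨h1, hcl, hpd⟩ := hχ.1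
        obtain ⟨g, hg⟩ := exists_trans ht hG (s2 := s2) (s3 := s3) 0
        have hg1 : g = 1 := by
          apply Subtype.ext
          apply Equiv.ext
          intro x
          rw [hg]
          simp
        have h4 := hρ 0 g hg
        rw [hg1, h1] at h4
        simp only [fourier_zero, integral_const] at h4
        have h5 : ρ.real univ = 1 := by
          have : ((ρ.real univ : ℝ) : ℂ) = 1 := by simpa using h4.symm
          exact_mod_cast this
        apply hp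
        refine ⟨?_⟩
        rw [measureReal_def, ENNReal.toReal_eq_one_iff] at h5
        exact h5))
    exact ⟨ρ, ⟨hρ, i2, i3, heρ, mu_of_root ht hG hφ2 hρ2 hroot⟩, hρ1⟩
  have hof : ∀ ρ : Measure UnitAddCircle, Root p μ ρ → IsRoot p φ (Pool.Agent.Y253.TR.tr ρ : G → ℂ) ∧
      IsSpectral (Pool.Agent.Y253.TR.tr ρ : G → ℂ) ρ ∧
      ∀ (n : ℤ) (k : ℕ) (g : G), (∀ x : ℚ, (g : Equiv.Perm ℚ) x = x + n / 6 ^ k) →
        (Pool.Agent.Y253.TR.tr ρ : G → ℂ) g = ∫ x, (fourier n x : ℂ) ∂ρ := by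
    intro ρ hρ
    have := hρ.prob
    obtain ⟨k1, -, k3, k4⟩ := trace_of hs2 hs3 ht hG hρ.two hρ.three (atomless_of_mu hρ.map hat) hρ.erg
    exact ⟨⟨k1, root_of_mu hs2 hs3 ht hG hφ3 k4 hρ.map⟩, k3, k4⟩
  have hinj : ∀ ρ ρ' : Measure UnitAddCircle, Root p μ ρ → Root p μ ρ' →
      (Pool.Agent.Y253.TR.tr ρ : G → ℂ) = Pool.Agent.Y253.TR.tr ρ' → ρ = ρ' := by
    intro ρ ρ' hρ hρ' heq
    have := hρ.prob
    have := hρ'.prob
    have k := (hof ρ hρ).2.1
    rw [heq] at k
    exact spectral_unique ht hG k (hof ρ' hρ').2.1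
  -- translations which are not powers
  have hdiv : ∀ g : G, ∀ (n : ℤ) (k : ℕ), (∀ x : ℚ, (g : Equiv.Perm ℚ) x = x + n / 6 ^ k) →
      (∀ h : G, IsTranslation h → h ^ p ≠ g) → ¬ (p : ℤ) ∣ n := by
    rintro g n k hg hno ⟨n', rfl⟩
    obtain ⟨h, hh⟩ := exists_trans' hs2 hs3 ht hG n' k
    apply hno h ⟨_, hh⟩
    apply Subtype.ext
    apply Equiv.ext
    intro x
    have hpow : ∀ (j : ℕ) x, ((h ^ j : G) : Equiv.Perm ℚ) x = x + ((j : ℤ) * n' : ℤ) / 6 ^ k := by
      intro j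
      induction j with
      | zero => intro x; simp
      | succ j ih =>
        intro x
        rw [pow_succ, Subgroup.coe_mul, Equiv.Perm.mul_apply, hh, ih]
        push_cast; ring
    rw [hpow, hg]
  rcases roots (p := p) hp5 h2 h3 he with ⟨ν, hν, huniq, htot⟩ | ⟨ν₀, R', h, hν0, hh1, hhd, hcard, hnot, hR', htot⟩
  · -- one root
    have := hν.prob
    refine ⟨{Pool.Agent.Y253.TR.tr ν}, fun _ => p, fun χ => ?_, by simp, fun g hg hno => ?_, Or.inl ⟨_, rfl⟩⟩
    · rw [Finset.mem_singleton]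
      constructor
      · rintro rfl
        exact (hof ν hν).1
      · intro hχ
        obtain ⟨ρ, hρ, hχρ⟩ := hto χ hχ
        rw [hχρ, huniq ρ hρ]
    · obtain ⟨n, k, hnk⟩ := trans_form hs2 hs3 ht hG hg
      rw [Finset.sum_singleton, (hof ν hν).2.2 n k g hnk]
      have hm : Pool.Agent.W764.FB.mu1 p ν = (p : ℝ≥0∞) • ν := by
        refine Measure.ext fun B hB => ?_
        rw [htot B hB, Measure.smul_apply, smul_eq_mul]
      have h5 := int_mu1_zero hp.pos ν (hdiv g n k hnk hno)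
      rw [hm, integral_smul_measure, ENNReal.toReal_natCast, Complex.real_smul] at h5
      exact_mod_cast h5
  · -- a section
    have hprob0 := hν0.prob
    have hR'' : ∀ ν ∈ R', Root p μ ν := fun ν hν => ((hR' ν).1 hν).1
    have hinjR : Set.InjOn (fun ν : Measure UnitAddCircle => (Pool.Agent.Y253.TR.tr ν : G → ℂ)) (R' : Set _) :=
      fun ν hν ν' hν' heq => hinj ν ν' (hR'' ν hν) (hR'' ν' hν') heq
    have hnot' : (Pool.Agent.Y253.TR.tr ν₀ : G → ℂ) ∉
        R'.image (fun ν : Measure UnitAddCircle => (Pool.Agent.Y253.TR.tr ν : G → ℂ)) := by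
      intro hmem
      obtain ⟨ν, hν, heq⟩ := Finset.mem_image.1 hmem
      exact hnot ((hinj ν ν₀ (hR'' ν hν) hν0 heq) ▸ hν)
    have hcard' : (p - 1) / h = R'.card := by
      rw [← hcard, Nat.mul_div_cancel_left _ (by omega)]
    set s : (G → ℂ) → ℕ := fun χ => if χ = Pool.Agent.Y253.TR.tr ν₀ then 1 else h with hs
    have hs0 : s (Pool.Agent.Y253.TR.tr ν₀) = 1 := if_pos rfl
    have hs1 : ∀ ν ∈ R', s (Pool.Agent.Y253.TR.tr ν) = h := by
      intro ν hν
      refine if_neg fun heq => ?_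
      exact hnot' (heq ▸ Finset.mem_image_of_mem _ hν)
    refine ⟨insert (Pool.Agent.Y253.TR.tr ν₀ : G → ℂ)
      (R'.image fun ν : Measure UnitAddCircle => (Pool.Agent.Y253.TR.tr ν : G → ℂ)), s,
      fun χ => ?_, ?_, fun g hg hno => ?_, Or.inr ⟨Pool.Agent.Y253.TR.tr ν₀, Finset.mem_insert_self _ _, hs0, h,
        hh1, hhd, ?_, ?_⟩⟩
    · rw [Finset.mem_insert, Finset.mem_image]
      constructor
      · rintro (rfl | ⟨ν, hν, rfl⟩)
        · exact (hof ν₀ hν0).1
        · exact (hof ν (hR'' ν hν)).1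
      · intro hχ
        obtain ⟨ρ, hρ, hχρ⟩ := hto χ hχ
        by_cases hρ0 : ρ = ν₀
        · left; rw [hχρ, hρ0]
        · right; exact ⟨ρ, (hR' ρ).2 ⟨hρ, hρ0⟩, hχρ.symm⟩
    · rw [Finset.sum_insert hnot', Finset.sum_image hinjR, hs0, Finset.sum_congr rfl hs1, Finset.sum_const,
        smul_eq_mul]
      have := hp.pos
      rw [mul_comm, hcard]
      omega
    · obtain ⟨n, k, hnk⟩ := trans_form hs2 hs3 ht hG hg
      rw [Finset.sum_insert hnot', Finset.sum_image hinjR, hs0]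
      have e1 : ∀ ν ∈ R', (s (Pool.Agent.Y253.TR.tr ν) : ℂ) * (Pool.Agent.Y253.TR.tr ν : G → ℂ) g =
          (h : ℂ) * ∫ x, (fourier n x : ℂ) ∂ν := by
        intro ν hν
        rw [hs1 ν hν, (hof ν (hR'' ν hν)).2.2 n k g hnk]
      rw [Finset.sum_congr rfl e1, (hof ν₀ hν0).2.2 n k g hnk, ← Finset.mul_sum]
      have hfin : ∀ ν ∈ R', IsFiniteMeasure ν := fun ν hν => by
        have := (hR'' ν hν).prob
        infer_instance
      have hsumfin : IsFiniteMeasure (∑ ν ∈ R', ν) := by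
        refine ⟨?_⟩
        rw [Measure.finsetSum_apply]
        refine ENNReal.sum_lt_top.2 fun ν hν => ?_
        have := hfin ν hν
        exact measure_lt_top ν _
      have hsmfin : IsFiniteMeasure ((h : ℝ≥0∞) • ∑ ν ∈ R', ν) :=
        ⟨by rw [Measure.smul_apply, smul_eq_mul]; exact ENNReal.mul_lt_top (ENNReal.natCast_lt_top h) (measure_lt_top _ _)⟩
      have hm : Pool.Agent.W764.FB.mu1 p ν₀ = ν₀ + (h : ℝ≥0∞) • ∑ ν ∈ R', ν := by
        refine Measure.ext fun B hB => ?_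
        rw [htot B hB, Measure.add_apply, Measure.smul_apply, smul_eq_mul, Measure.finsetSum_apply]
      have h5 := int_mu1_zero hp.pos ν₀ (hdiv g n k hnk hno)
      rw [hm, integral_add_measure (integrable_four n _) (integrable_four n _), integral_smul_measure,
        ENNReal.toReal_natCast, Complex.real_smul,
        integral_finsetSum_measure fun ν hν => by
          have := hfin ν hν
          exact integrable_four n ν] at h5
      rw [Nat.cast_one, one_mul]
      exact_mod_cast h5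
    · rw [Finset.card_insert_of_notMem hnot', Finset.card_image_of_injOn hinjR, hcard']
      omega
    · intro χ _ hne
      exact if_neg hne

end Pool.Agent.Results.MP_81910f_an.PrimeRoots
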