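import Pool.Agent.H50.Tr.Reg

set_option autoImplicit false

open MeasureTheory Filter Topology Set
open scoped ComplexOrder

namespace Pool.Agent.Results.MP_81910f_an.RegularSequences

open Pool.Agent.H50 Pool.Agent.H50.Tr

/-- **The dichotomy for the extreme traces of `ℤ² ⋉ ℤ[1/6]` and the arithmetic subsequences of one
coefficient sequence.** `G` is generated by the permutations `x ↦ 2 x`, `x ↦ 3 x`, `x ↦ x + 1` of
`ℚ`; `Traces G` is the set of normalised positive definite class functions, i.e. of the tracial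
states of `C*(G)`. For every `η > 0` there is one set `C` of moduli, whose complement has at most
`η N` elements below each `N`, such that for every extreme trace `φ` and every translation `g ≠ 1`
the following are equivalent:
(a) `φ` satisfies the dichotomy: it is the regular trace or conditionally finite-dimensional;
(b) for some `q ≥ 2` the sequence `n ↦ φ (g ^ n)` is `q`-regular: its `q`-kernel, which consists of
the sequences `n ↦ φ (g ^ (q ^ k n + r))`, `0 ≤ r < q ^ k`, spans a finite-dimensional space;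
(c) for some infinite set `S` of moduli the sequences `n ↦ φ (g ^ (M n + r))`, `M ∈ S`,
`0 ≤ r < M`, span a finite-dimensional space;
(d) they span a finite-dimensional space for every set `S` of moduli;
(e) there is a bound `B` such that for infinitely many `M ∈ C` the sequences
`n ↦ φ (g ^ (M n + r))`, `0 ≤ r < M`, span a space of dimension at most `B`;
(f) for some modulus `M = 2 ^ i 3 ^ j ≠ 1` the sequences `n ↦ φ (g ^ (M n + r))`, `r ∈ ℤ`, are
linearly dependent. -/
theorem result (s2 s3 t : Equiv.Perm ℚ) (hs2 : ∀ x, s2 x = 2 * x) (hs3 : ∀ x, s3 x = 3 * x)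
    (ht : ∀ x, t x = x + 1) (G : Subgroup (Equiv.Perm ℚ)) (hG : G = Subgroup.closure {s2, s3, t}) :
    ∀ η : ℝ, 0 < η → ∃ C : Set ℕ, (∀ N : ℕ, ((Nat.card {c : ℕ | c < N ∧ c ∉ C} : ℕ) : ℝ) ≤ η * N) ∧
      ∀ φ ∈ Set.extremePoints ℝ (Traces G), ∀ g : G, IsTranslation g → g ≠ 1 →
        List.TFAE [φ = Regular G ∨ CondFinDim φ,
          ∃ q : ℕ, 2 ≤ q ∧ FiniteDimensional ℂ (kernelSpan φ g (Set.range fun k : ℕ => q ^ k)),
          ∃ S : Set ℕ, S.Infinite ∧ FiniteDimensional ℂ (kernelSpan φ g S),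
          ∀ S : Set ℕ, FiniteDimensional ℂ (kernelSpan φ g S),
          ∃ B : ℕ, ∃ S ⊆ C, S.Infinite ∧ ∀ M ∈ S, Module.finrank ℂ (kernelSpan φ g {M}) ≤ B,
          ∃ i j : ℕ, 2 ^ i * 3 ^ j ≠ 1 ∧
            ¬ LinearIndependent ℂ (fun r : ℤ => fun n : ℤ => φ (g ^ (2 ^ i * 3 ^ j * n + r)))] := by
  intro η hη
  obtain ⟨C, hC1, hC2⟩ := Pool.Agent.TH463.UQ.main (η := min η (1 / 2)) (by positivity)
  have hCinf : C.Infinite := by
    intro hfin
    obtain ⟨K, hK⟩ := hfin.bddAbove
    have h1 := hC1 (4 * (K + 1))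
    have h2 : 3 * (K + 1) ≤ Nat.card {c : ℕ | c < 4 * (K + 1) ∧ c ∉ C} := by
      have h3 : (Finset.Ico (K + 1) (4 * (K + 1)) : Set ℕ) ⊆ {c : ℕ | c < 4 * (K + 1) ∧ c ∉ C} := by
        intro c hc
        rw [Finset.coe_Ico, Set.mem_Ico] at hc
        exact ⟨hc.2, fun h => by have := hK h; omega⟩
      have h4 : ({c : ℕ | c < 4 * (K + 1) ∧ c ∉ C}).Finite :=
        (Set.finite_lt_nat (4 * (K + 1))).subset fun c hc => hc.1
      have h5 := Set.ncard_le_ncard h3 h4
      rw [Set.ncard_coe_finset, Nat.card_Ico] at h5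
      rw [Nat.card_coe_set_eq]
      omega
    have h3 : ((3 * (K + 1) : ℕ) : ℝ) ≤ 1 / 2 * ((4 * (K + 1) : ℕ) : ℝ) := by
      refine le_trans (by exact_mod_cast h2) (h1.trans ?_)
      exact mul_le_mul_of_nonneg_right (min_le_right _ _) (Nat.cast_nonneg _)
    push_cast at h3
    have h4 : (0 : ℝ) ≤ K := Nat.cast_nonneg _
    linarith
  refine ⟨C, fun N => (hC1 N).trans (mul_le_mul_of_nonneg_right (min_le_left _ _) (Nat.cast_nonneg _)), ?_⟩
  intro φ hφ g hg hg1
  have hrange : ∀ q : ℕ, 2 ≤ q → (Set.range fun k : ℕ => q ^ k).Infinite := fun q hq =>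
    Set.infinite_range_of_injective (Nat.pow_right_injective hq)
  tfae_have 1 → 4 := by
    rintro (h | h) S
    · rw [h]
      exact kernelSpan_finite_of_regular hg hg1 S
    · exact kernelSpan_finite_of_fd hs2 hs3 ht hG hφ.1 h hg S
  tfae_have 4 → 2 := fun h => ⟨2, le_rfl, h _⟩
  tfae_have 2 → 3 := fun ⟨q, hq, h⟩ => ⟨_, hrange q hq, h⟩
  tfae_have 3 → 1 := by
    rintro ⟨S, hS, hfin⟩
    by_contra hcon
    rw [not_or] at hcon
    obtain ⟨μ, hE, hval⟩ := wild_measure hs2 hs3 ht hG hφ hcon.1 hcon.2 hg hg1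
    have := hE.prob
    rw [kernelSpan_eq hval] at hfin
    exact RS.infinite_seq (conc_of_exceptional hE) hE.atomless hS hfin
  tfae_have 4 → 5 := by
    intro h
    have hfin := h Set.univ
    refine ⟨Module.finrank ℂ (kernelSpan φ g Set.univ), C, subset_rfl, hCinf, fun M _ => ?_⟩
    refine Submodule.finrank_mono (Submodule.span_mono ?_)
    rintro f ⟨M', -, hf⟩
    exact ⟨M', Set.mem_univ _, hf⟩
  tfae_have 5 → 1 := by
    rintro ⟨B, S, hSC, hS, hB⟩
    by_contra hcon
    rw [not_or] at hcon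
    obtain ⟨μ, hE, hval⟩ := wild_measure hs2 hs3 ht hG hφ hcon.1 hcon.2 hg hg1
    have := hE.prob
    have h1 := (hC2 2 le_rfl μ hE.prob hE.inv_p hE.atomless).1
    have h2 := RS.dim_tendsto (conc_of_exceptional hE) (F := atTop ⊓ 𝓟 C) inf_le_left h1
    have h3 : (atTop ⊓ 𝓟 S : Filter ℕ) ≤ atTop ⊓ 𝓟 C := inf_le_inf_left _ (principal_mono.2 hSC)
    have h4 := (h2.mono_left h3).eventually_gt_atTop B
    have hne : (atTop ⊓ 𝓟 S : Filter ℕ).NeBot := by
      rw [← frequently_mem_iff_neBot]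
      exact Nat.frequently_atTop_iff_infinite.2 hS
    have h5 : ∀ᶠ M in (atTop ⊓ 𝓟 S : Filter ℕ), M ∈ S := mem_inf_of_right (mem_principal_self S)
    obtain ⟨M, hM1, hM2⟩ := (h4.and h5).exists
    have h6 := hB M hM2
    rw [kernelSpan_eq hval, Set.biUnion_singleton] at h6
    exact absurd h6 (not_le.2 hM1)
  tfae_have 1 → 6 := by
    rintro (h | h)
    · refine ⟨1, 0, by norm_num, fun hli => ?_⟩
      apply hli.ne_zero 1
      funext n
      show φ (g ^ (2 ^ 1 * 3 ^ 0 * n + 1)) = 0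
      rw [h]
      unfold Regular
      rw [Set.indicator_of_notMem]
      intro h0
      exact zpow_ne_one hg hg1 (by omega) h0
    · obtain ⟨N, hN, hper⟩ := per_of_fd hs2 hs3 ht hG hφ.1 h hg
      refine ⟨1, 0, by norm_num, fun hli => ?_⟩
      have h1 : (0 : ℤ) = N := by
        apply hli.injective
        funext n
        show φ (g ^ (2 ^ 1 * 3 ^ 0 * n + 0)) = φ (g ^ (2 ^ 1 * 3 ^ 0 * n + (N : ℤ)))
        rw [hper, add_zero]
      omega
  tfae_have 6 → 1 := by
    rintro ⟨i, j, -, hli⟩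
    by_contra hcon
    rw [not_or] at hcon
    obtain ⟨μ, hE, hval⟩ := wild_measure hs2 hs3 ht hG hφ hcon.1 hcon.2 hg hg1
    have := hE.prob
    apply hli
    have h := RS.lin_indep hE.inv_p hE.inv_q (hE.sing le_rfl (by norm_num)) hE.atomless
      (M := 2 ^ i * 3 ^ j) ⟨i, j, rfl⟩
    have e : (fun r : ℤ => fun n : ℤ => φ (g ^ (2 ^ i * 3 ^ j * n + r))) =
        fun r : ℤ => fun n : ℤ => ∫ x, (fourier (((2 ^ i * 3 ^ j : ℕ) : ℤ) * n + r) x : ℂ) ∂μ := by
      funext r n
      rw [hval]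
      push_cast
      rfl
    rw [e]
    exact h
  tfae_finish

end Pool.Agent.Results.MP_81910f_an.RegularSequences
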