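import Pool.Agent.H50.UR.Tr

set_option autoImplicit false

open MeasureTheory Filter Topology Set
open scoped ComplexOrder

namespace Pool.Agent.Results.MP_81910f_an.UniqueRoots

open Pool.Agent.H50 Pool.Agent.H50.Tr Pool.Agent.H50.UR Pool.Agent.V11299.FG
open Pool.Agent.TH654.FC Pool.Agent.V1194.TR Pool.Agent.W763.Tr

/-- the average of `exp (2 π i 2 ^ a 3 ^ b j n / m)` over `0 ≤ a, b < φ(m)`: the average of
`t ↦ exp (2 π i n t)` over the orbit of `j / m` under multiplication by `2` and `3` modulo `1` -/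
noncomputable def orbitAverage (m j : ℕ) (n : ℤ) : ℂ :=
  ((m.totient : ℂ) * m.totient)⁻¹ * ∑ a ∈ Finset.range m.totient, ∑ b ∈ Finset.range m.totient,
    Complex.exp (2 * Real.pi * Complex.I * (2 ^ a * 3 ^ b * j * n) / m)

/-- `χ` is the product of `ψ` with the orbit average: it vanishes off the translations and is
`ψ g * orbitAverage m j n` at the translation `g` by `n / 6 ^ k` -/
def IsTwist {G : Subgroup (Equiv.Perm ℚ)} (m j : ℕ) (ψ χ : G → ℂ) : Prop :=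
  (∀ g : G, ¬ IsTranslation g → χ g = 0) ∧
    ∀ (n : ℤ) (k : ℕ) (g : G), (∀ x : ℚ, (g : Equiv.Perm ℚ) x = x + n / 6 ^ k) →
      χ g = ψ g * orbitAverage m j n

lemma orbitAverage_eq (m j : ℕ) (n : ℤ) :
    ((m.totient : ℂ) * m.totient)⁻¹ * ∑ a ∈ Finset.range m.totient, ∑ b ∈ Finset.range m.totient,
      (fourier n ((2 ^ a * 3 ^ b) • Pool.Agent.W764.FB.hh m 1 j) : ℂ) = orbitAverage m j n := by
  unfold orbitAverage
  congr 1
  refine Finset.sum_congr rfl fun a _ => Finset.sum_congr rfl fun b _ => ?_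
  unfold Pool.Agent.W764.FB.hh
  rw [← AddCircle.coe_nsmul, fourier_coe_apply, nsmul_eq_mul]
  congr 1
  push_cast
  simp only [pow_one, div_one]
  ring

/-- **Unique roots of totally ergodic traces, and all the roots.** `G` is generated by the
permutations `x ↦ 2 x`, `x ↦ 3 x`, `x ↦ x + 1` of `ℚ`, `Traces G` is the set of normalised positive
definite class functions (the tracial states of `C*(G)`) and `TE G` is the set of the extreme traces
which are not conditionally finite-dimensional and have a totally ergodic spectral measure. Let `m`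
be prime to `6`. The relation `ψ (g ^ m) = φ g` for all translations `g` is the graph of a bijection
`ψ ↦ φ` of `TE G` onto itself: every totally ergodic trace `φ` has exactly one totally ergodic
`m`-th root `ψ`. The extreme traces `χ` (totally ergodic or not) with `χ (g ^ m) = φ g` for all
translations `g` are exactly the products of `ψ` with the averages of `t ↦ exp (2 π i n t)` over the
orbits of the points `j / m`, `0 ≤ j < m`, under multiplication by `2` and `3`. -/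
theorem result (s2 s3 t : Equiv.Perm ℚ) (hs2 : ∀ x, s2 x = 2 * x) (hs3 : ∀ x, s3 x = 3 * x)
    (ht : ∀ x, t x = x + 1) (G : Subgroup (Equiv.Perm ℚ)) (hG : G = Subgroup.closure {s2, s3, t}) :
    ∀ m : ℕ, 0 < m → m.Coprime 6 → ∃ e : TE G ≃ TE G,
      (∀ (ψ : TE G) (g : G), IsTranslation g → (ψ : G → ℂ) (g ^ m) = (e ψ : G → ℂ) g) ∧
      ∀ (ψ : TE G) (χ : G → ℂ),
        (χ ∈ Set.extremePoints ℝ (Traces G) ∧
            ∀ g : G, IsTranslation g → χ (g ^ m) = (e ψ : G → ℂ) g) ↔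
          ∃ j : ℕ, j < m ∧ IsTwist m j (ψ : G → ℂ) χ := by
  intro m hm hm6
  have hm2 : m.Coprime 2 := Nat.Coprime.coprime_dvd_right (by norm_num : 2 ∣ 6) hm6
  have hm3 : m.Coprime 3 := Nat.Coprime.coprime_dvd_right (by norm_num : 3 ∣ 6) hm6
  have hform : ∀ g : G, ∃ (a b : ℤ) (r : ℚ), Six r ∧
      ∀ x, (g : Equiv.Perm ℚ) x = 2 ^ a * 3 ^ b * x + r := fun g =>
    form hs2 hs3 ht g (by rw [← hG]; exact g.2)
  -- the measure of an element of `TE G`
  have key : ∀ φ ∈ TE G, ∃ μ : Measure UnitAddCircle, IsProbabilityMeasure μ ∧ UR.mu 2 μ = μ ∧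
      UR.mu 3 μ = μ ∧ (∀ x, μ {x} = 0) ∧ TotErg μ ∧ φ = Pool.Agent.Y253.TR.tr μ ∧ IsSpectral φ μ ∧
      ∀ (n : ℤ) (k : ℕ) (g : G), (∀ x : ℚ, (g : Equiv.Perm ℚ) x = x + n / 6 ^ k) →
        φ g = ∫ x, (fourier n x : ℂ) ∂μ := by
    rintro φ ⟨hext, hfd, μ', hprob', hspec', hT⟩
    obtain ⟨μ, hprob, h2, h3, hat, he, hφ, hspec⟩ := of_extreme hs2 hs3 ht hG hext (Or.inl hfd)
    have hμ : μ' = μ := spectral_unique ht hG hspec' hspec
    rw [hμ] at hT
    refine ⟨μ, hprob, h2, h3, hat, hT, hφ, hspec, ?_⟩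
    rw [hφ]
    exact (trace_of hs2 hs3 ht hG h2 h3 hat he).2.2.2
  have hmem : ∀ μ : Measure UnitAddCircle, IsProbabilityMeasure μ → UR.mu 2 μ = μ → UR.mu 3 μ = μ →
      (∀ x, μ {x} = 0) → TotErg μ → (Pool.Agent.Y253.TR.tr μ : G → ℂ) ∈ TE G ∧
      ∀ (n : ℤ) (k : ℕ) (g : G), (∀ x : ℚ, (g : Equiv.Perm ℚ) x = x + n / 6 ^ k) →
        (Pool.Agent.Y253.TR.tr μ : G → ℂ) g = ∫ x, (fourier n x : ℂ) ∂μ := by
    intro μ hprob h2 h3 hat hT
    obtain ⟨e1, e2, e3, e4⟩ := trace_of hs2 hs3 ht hG h2 h3 hat (je_of_te hT)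
    exact ⟨⟨e1, e2, μ, hprob, e3, hT⟩, e4⟩
  -- the map
  have hf : ∀ ψ : TE G, ∃ φ : TE G, ∀ g : G, IsTranslation g → (ψ : G → ℂ) (g ^ m) = (φ : G → ℂ) g := by
    rintro ⟨ψ, hψ⟩
    obtain ⟨ν, hν, h2, h3, hat, hT, -, -, hval⟩ := key ψ hψ
    have i2 : UR.mu 2 (UR.mu m ν) = UR.mu m ν := by rw [mu_comm, h2]
    have i3 : UR.mu 3 (UR.mu m ν) = UR.mu m ν := by rw [mu_comm, h3]
    have iat : ∀ x, (UR.mu m ν) {x} = 0 := by
      intro x
      unfold UR.mu
      rw [Measure.map_apply (meas_nsmul m) (measurableSet_singleton _)]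
      have hfin : ((fun x : UnitAddCircle => m • x) ⁻¹' {x}).Finite := finite_fibre hm x
      rw [← Set.biUnion_of_singleton ((fun x : UnitAddCircle => m • x) ⁻¹' {x})]
      exact (measure_biUnion_null_iff hfin.countable).2 fun y _ => hat y
    obtain ⟨e1, e2⟩ := hmem (UR.mu m ν) inferInstance i2 i3 iat (hT.mu m)
    exact ⟨⟨_, e1⟩, root_of_mu hs2 hs3 ht hG e2 hval rfl⟩
  choose f hf using hf
  have hinj : Function.Injective f := by
    rintro ⟨ψ, hψ⟩ ⟨ψ', hψ'⟩ hff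
    apply Subtype.ext
    show ψ = ψ'
    obtain ⟨ν, hν, h2, h3, hat, hT, hν1, hν2, -⟩ := key ψ hψ
    obtain ⟨ν', hν', h2', h3', hat', hT', hν1', hν2', -⟩ := key ψ' hψ'
    obtain ⟨μ, hμ, -, -, -, -, -, hμ2, -⟩ := key _ (f ⟨ψ, hψ⟩).2
    have e1 := mu_of_root ht hG hμ2 hν2 (hf ⟨ψ, hψ⟩)
    have e2 := mu_of_root ht hG hμ2 hν2' (by rw [hff]; exact hf ⟨ψ', hψ'⟩)
    have e3 : ν' = ν := unique_root hm hm2 hm3 hT hT' h2 h3 h2' h3' (by rw [e1, e2])
    rw [hν1, hν1', e3]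
  have hsurj : Function.Surjective f := by
    rintro ⟨φ, hφ⟩
    obtain ⟨μ, hμ, h2, h3, hat, hT, hμ1, hμ2, hμ3⟩ := key φ hφ
    obtain ⟨ν, hν, h2', h3', hT', hm'⟩ := exists_root hm hm2 hm3 h2 h3 hT
    obtain ⟨e1, e2⟩ := hmem ν hν h2' h3' (atomless_of_mu hm' hat) hT'
    refine ⟨⟨_, e1⟩, ?_⟩
    apply Subtype.ext
    obtain ⟨μ', hμ', -, -, -, -, hμ1', hμ2', -⟩ := key _ (f ⟨_, e1⟩).2
    have e3 := mu_of_root ht hG hμ2' (trace_of hs2 hs3 ht hG h2' h3' (atomless_of_mu hm' hat)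
      (je_of_te hT')).2.2.1 (hf ⟨_, e1⟩)
    show (f ⟨_, e1⟩ : G → ℂ) = φ
    rw [hμ1', hμ1, ← e3, hm']
  refine ⟨Equiv.ofBijective f ⟨hinj, hsurj⟩, hf, ?_⟩
  rintro ⟨ψ, hψ⟩ χ
  obtain ⟨ν, hν, h2, h3, hat, hT, hν1, hν2, hν3⟩ := key ψ hψ
  obtain ⟨μ, hμ, -, -, hatμ, -, hμ1, hμ2, hμ3⟩ := key _ (f ⟨ψ, hψ⟩).2
  have e1 := mu_of_root ht hG hμ2 hν2 (hf ⟨ψ, hψ⟩)
  show (χ ∈ Set.extremePoints ℝ (Traces G) ∧
      ∀ g : G, IsTranslation g → χ (g ^ m) = (f ⟨ψ, hψ⟩ : G → ℂ) g) ↔ _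
  have hoff : ∀ (σ : Measure UnitAddCircle) (g : G), ¬ IsTranslation g →
      (Pool.Agent.Y253.TR.tr σ : G → ℂ) g = 0 := by
    intro σ g hg
    unfold Pool.Agent.Y253.TR.tr
    rw [if_neg]
    intro hl
    exact hg ⟨(g : Equiv.Perm ℚ) 0, fun x => by rw [Pool.Agent.Y253.TR.aff hform g x, hl, one_mul]⟩
  constructor
  · rintro ⟨hχ, hroot⟩
    obtain ⟨ρ, hρ, i2, i3, hatρ, he, hρ1, hρ2⟩ := of_extreme hs2 hs3 ht hG hχ (Or.inr (by
      intro ρ hρ x
      by_cases hp : IsProbabilityMeasure ρ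
      · exact atomless_of_mu (mu_of_root ht hG hμ2 hρ hroot) hatμ x
      · exfalso
        obtain ⟨h1, hcl, hpd⟩ := hχ.1
        obtain ⟨g, hg⟩ := exists_trans ht hG (s2 := s2) (s3 := s3) 0
        have hg1 : g = 1 := by
          apply Subtype.ext
          apply Equiv.ext
          intro x
          rw [hg]
          simp
        have h4 := hρ 0 g hg
        rw [hg1, h1] at h4
        simp only [fourier_zero, integral_const, smul_eq_mul, mul_one] at h4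
        have h5 : ρ.real univ = 1 := by
          have : ((ρ.real univ : ℝ) : ℂ) = 1 := by simpa using h4.symm
          exact_mod_cast this
        apply hp
        refine ⟨?_⟩
        rw [measureReal_def, ENNReal.toReal_eq_one_iff] at h5
        exact h5))
    have e2 := mu_of_root ht hG hμ2 hρ2 hroot
    obtain ⟨j, hj, hρj⟩ := all_lifts hm hm2 hm3 hT h2 h3 i2 i3 he (by rw [e2, e1])
    refine ⟨j, hj, fun g hg => by rw [hρ1]; exact hoff ρ g hg, fun n k g hg => ?_⟩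
    show χ g = ψ g * _
    rw [hρ1, (trace_of hs2 hs3 ht hG i2 i3 hatρ he).2.2.2 n k g hg, hν3 n k g hg, hρj, fc_orb,
      orbitAverage_eq]
  · rintro ⟨j, hj, hoffχ, hval⟩
    have htj : m • Pool.Agent.W764.FB.hh m 1 j = 0 := smul_hh_one hm j
    set σ := orb m (Pool.Agent.W764.FB.hh m 1 j) ν with hσ
    have hprob : IsProbabilityMeasure σ := orb_prob hm _ ν
    have k1 : UR.mu m σ = μ := by rw [hσ, orb_mu hm htj, e1]
    have k2 := trace_of hs2 hs3 ht hG (orb_two hm hm2 htj h2) (orb_three hm hm3 htj h3)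
      (atomless_of_mu k1 hatμ) (orb_erg hm hm2 hm3 htj hT h2 h3)
    have hχ : χ = Pool.Agent.Y253.TR.tr σ := by
      funext g
      by_cases hg : IsTranslation g
      · obtain ⟨n, k, hnk⟩ := trans_form hs2 hs3 ht hG hg
        rw [hval n k g hnk, k2.2.2.2 n k g hnk, fc_orb, orbitAverage_eq]
        show ψ g * _ = _
        rw [hν3 n k g hnk]
      · rw [hoffχ g hg, hoff σ g hg]
    rw [hχ]
    exact ⟨k2.1, root_of_mu hs2 hs3 ht hG hμ3 k2.2.2.2 k1⟩

end Pool.Agent.Results.MP_81910f_an.UniqueRoots
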